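import Pool.Agent.Lib.MP_d988c5_lc.FinalNo
import Pool.Agent.Lib.MP_d988c5_lc.YesW

/-!
# MP_d988c5_lc : the question is independent of ZFC

There is a countable transitive model of `ZFC` in which the answer to the question is positive, and
there is a countable transitive model of `ZFC` in which the answer is negative; in the second model
one set `E` of the ideal meets `X + Y` for all sets `X`, `Y` of positive outer measure.
-/

namespace Pool.Agent.Results.MP_d988c5_lc.Independence

open Pool.Agent.CR (V IsTransModelZFC)
open Pool.Agent.DN

theorem result : (∃ N : Set V, N.Countable ∧ IsTransModelZFC N ∧ Q1 N) ∧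
    ∃ N : Set V, N.Countable ∧ IsTransModelZFC N ∧ StrongNo N ∧ ¬ Q1 N :=
  ⟨main_yes, main_no⟩

end Pool.Agent.Results.MP_d988c5_lc.Independence
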